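import Pool.Agent.H6.AB.Three

/-!
# Three integer points near a curve are collinear
-/

namespace Pool.Agent.H6.AB

/-- the form of degree `n` in `x, y` and the lower terms: `sum b k j x ^ (n - k - j) y ^ j` -/
noncomputable def Fb (n : ℕ) (b : ℕ → ℕ → ℝ) (x y : ℝ) : ℝ :=
  ∑ k ∈ Finset.range (n + 1), ∑ j ∈ Finset.range (n + 1), b k j * (x ^ (n - k - j) * y ^ j)

theorem Fb_eq {n : ℕ} {b : ℕ → ℕ → ℝ} (h0 : ∀ k j, n < k + j → b k j = 0) {x : ℝ} (hx : x ≠ 0)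
    (y : ℝ) : Fb n b x y = x ^ n * Ph n b (1 / x) (y / x) := by
  unfold Fb Ph
  rw [Finset.mul_sum]
  apply Finset.sum_congr rfl
  intro k _
  rw [Finset.mul_sum]
  apply Finset.sum_congr rfl
  intro j _
  rcases lt_or_ge n (k + j) with h | h
  · rw [h0 k j h]; ring
  · obtain ⟨m, rfl⟩ : ∃ m, n = k + j + m := ⟨n - (k + j), by omega⟩
    have : k + j + m - k - j = m := by omega
    rw [this, pow_add, pow_add, div_pow, div_pow, one_pow]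
    field_simp

theorem det_eq {x1 x2 x3 y1 y2 y3 : ℝ} (h1 : x1 ≠ 0) (h2 : x2 ≠ 0) (h3 : x3 ≠ 0) :
    (x2 - x1) * (y3 - y1) - (x3 - x1) * (y2 - y1) =
      -(x1 * x2 * x3) * ((1 / x2 - 1 / x1) * (y3 / x3 - y1 / x1) -
        (1 / x3 - 1 / x1) * (y2 / x2 - y1 / x1)) := by
  field_simp
  ring

theorem inv_diff {x y X D : ℝ} (hX : 0 < X) (hx : X ≤ |x|) (hy : X ≤ |y|)
    (h : |x - y| ≤ X / D) : |1 / x - 1 / y| ≤ 1 / (D * X) := by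
  have hx0 : x ≠ 0 := by rintro rfl; simp at hx; linarith
  have hy0 : y ≠ 0 := by rintro rfl; simp at hy; linarith
  have e : 1 / x - 1 / y = (y - x) / (x * y) := by field_simp
  rw [e, abs_div, abs_mul, abs_sub_comm]
  calc |x - y| / (|x| * |y|) ≤ (X / D) / (X * X) := by
        have : 0 ≤ X / D := (abs_nonneg _).trans h
        gcongr
    _ = _ := by field_simp

/-- Three integer points near a curve, near to each other, are collinear. -/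
theorem collinear {n : ℕ} (hn : 3 ≤ n) {b : ℕ → ℕ → ℝ} {H A X : ℝ} (hH : 0 < H) (hA : 1 ≤ A)
    (hb : ∀ k ≤ n, ∀ j ≤ n, |b k j| ≤ H) (h0 : ∀ k j, n < k + j → b k j = 0)
    (hX : 6 * cM n * A ^ 2 ≤ X)
    {x1 x2 x3 y1 y2 y3 : ℤ} (hx1 : X ≤ |(x1 : ℝ)|) (hx2 : X ≤ |(x2 : ℝ)|) (hx3 : X ≤ |(x3 : ℝ)|)
    (hX1 : |(x1 : ℝ)| ≤ 2 * X) (hX2 : |(x2 : ℝ)| ≤ 2 * X) (hX3 : |(x3 : ℝ)| ≤ 2 * X)
    (hy1 : |(y1 : ℝ)| ≤ |(x1 : ℝ)|) (hy2 : |(y2 : ℝ)| ≤ |(x2 : ℝ)|) (hy3 : |(y3 : ℝ)| ≤ |(x3 : ℝ)|)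
    (h1 : |Fb n b x1 y1| ≤ H) (h2 : |Fb n b x2 y2| ≤ H) (h3 : |Fb n b x3 y3| ≤ H)
    (h12 : |(x2 : ℝ) - x1| ≤ X / (6 * cM n * A)) (h13 : |(x3 : ℝ) - x1| ≤ X / (6 * cM n * A))
    (hg : ∀ t : ℝ, |t| ≤ 1 → H / A < |Ph n b 0 t| ∨ H / A < |Pht n b 0 t|)
    (g12 : ∀ z ∈ Set.uIcc ((y1 : ℝ) / x1) (y2 / x2), Pht n b 0 z ≠ 0)
    (g13 : ∀ z ∈ Set.uIcc ((y1 : ℝ) / x1) (y3 / x3), Pht n b 0 z ≠ 0) :
    (x2 - x1) * (y3 - y1) - (x3 - x1) * (y2 - y1) = 0 := by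
  have hM4 : 4 ≤ cM n := by
    unfold cM
    have : 0 ≤ 4 * (n : ℝ) ^ 2 * ((n : ℝ) + 1) ^ 2 + 2 * n * ((n : ℝ) + 1) ^ 2 := by positivity
    linarith
  have hXp : 1 ≤ X := by nlinarith [mul_nonneg (by linarith : (0 : ℝ) ≤ 6 * cM n) (by nlinarith : (0 : ℝ) ≤ A ^ 2 - 1)]
  have hX0 : 0 < X := by linarith
  have ne : ∀ x : ℤ, X ≤ |(x : ℝ)| → (x : ℝ) ≠ 0 := by
    intro x hx h
    rw [h] at hx; simp at hx; linarith
  have small : ∀ x y : ℤ, X ≤ |(x : ℝ)| → |Fb n b x y| ≤ H →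
      |Ph n b (1 / (x : ℝ)) (y / x)| ≤ H * (1 / X ^ 3) := by
    intro x y hx h
    rw [Fb_eq h0 (ne x hx), abs_mul, abs_pow] at h
    have hxn : X ^ 3 ≤ |(x : ℝ)| ^ n := by
      calc X ^ 3 ≤ |(x : ℝ)| ^ 3 := by gcongr
        _ ≤ |(x : ℝ)| ^ n := pow_le_pow_right₀ (by linarith) hn
    rw [mul_one_div, le_div_iff₀ (by positivity)]
    calc |Ph n b (1 / (x : ℝ)) (y / x)| * X ^ 3 ≤
        |Ph n b (1 / (x : ℝ)) (y / x)| * |(x : ℝ)| ^ n := by gcongr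
      _ = |(x : ℝ)| ^ n * |Ph n b (1 / (x : ℝ)) (y / x)| := mul_comm _ _
      _ ≤ H := h
  have ub : ∀ x : ℤ, X ≤ |(x : ℝ)| → |1 / (x : ℝ)| ≤ 1 / X := by
    intro x hx
    rw [abs_div, abs_one]
    exact one_div_le_one_div_of_le hX0 hx
  have tb : ∀ x y : ℤ, X ≤ |(x : ℝ)| → |(y : ℝ)| ≤ |(x : ℝ)| → |(y : ℝ) / x| ≤ 1 := by
    intro x y hx hy
    rw [abs_div, div_le_one (by linarith)]
    exact hy
  have h := three n hH hA hb hX le_rfl (ub x1 hx1) (ub x2 hx2) (ub x3 hx3) (tb x1 y1 hx1 hy1)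
    (tb x2 y2 hx2 hy2) (tb x3 y3 hx3 hy3) (small x1 y1 hx1 h1) (small x2 y2 hx2 h2)
    (small x3 y3 hx3 h3) (inv_diff hX0 hx2 hx1 h12) (inv_diff hX0 hx3 hx1 h13) hg g12 g13
  have hd := det_eq (y1 := (y1 : ℝ)) (y2 := y2) (y3 := y3) (ne x1 hx1) (ne x2 hx2) (ne x3 hx3)
  have hlt : |(((x2 - x1) * (y3 - y1) - (x3 - x1) * (y2 - y1) : ℤ) : ℝ)| < 1 := by
    push_cast
    rw [hd, abs_mul, abs_neg, abs_mul, abs_mul]
    refine lt_of_le_of_lt ?_ h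
    refine mul_le_mul_of_nonneg_right ?_ (abs_nonneg _)
    calc |(x1 : ℝ)| * |(x2 : ℝ)| * |(x3 : ℝ)| ≤ 2 * X * (2 * X) * (2 * X) := by gcongr
      _ = _ := by ring
  rw [← Int.cast_abs] at hlt
  have : |(x2 - x1) * (y3 - y1) - (x3 - x1) * (y2 - y1)| < 1 := by exact_mod_cast hlt
  exact Int.abs_lt_one_iff.1 this

end Pool.Agent.H6.AB
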