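import Pool.Agent.H6.AB.Three

/-!
# Three points near a curve in a window of length `w`
-/

namespace Pool.Agent.H6.AB

/-- the inequality at the end of the three point argument, windows of length `w` -/
theorem core2 {M H A ε w D α u2 t2 u3 t3 : ℝ} (hM : 1 ≤ M) (hH : 0 < H) (hA : 1 ≤ A)
    (hε0 : 0 ≤ ε) (hε : ε ≤ 1) (hD : H / (2 * A) ≤ |D|)
    (h2 : |α * u2 + D * t2| ≤ M * H * (ε + u2 ^ 2 + t2 ^ 2))
    (h3 : |α * u3 + D * t3| ≤ M * H * (ε + u3 ^ 2 + t3 ^ 2))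
    (hu2 : |u2| ≤ w) (hu3 : |u3| ≤ w)
    (ht2 : |t2| ≤ M * A * (|u2| + ε)) (ht3 : |t3| ≤ M * A * (|u3| + ε)) :
    |u2 * t3 - u3 * t2| ≤ 12 * M ^ 3 * A ^ 3 * w * (ε + w ^ 2) := by
  have hA0 : 0 < A := by linarith
  have hM0 : 0 < M := by linarith
  have hw0 : 0 ≤ w := (abs_nonneg _).trans hu2
  have hMA : 1 ≤ M * A := by nlinarith
  have key : ∀ u t : ℝ, |u| ≤ w → |t| ≤ M * A * (|u| + ε) →
      ε + u ^ 2 + t ^ 2 ≤ 3 * (M * A) ^ 2 * (ε + w ^ 2) := by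
    intro u t hu ht
    have h1 : |t| ≤ M * A * (w + ε) := ht.trans (by gcongr)
    have h4 : t ^ 2 ≤ (M * A) ^ 2 * (2 * (ε + w ^ 2)) := by
      rw [← sq_abs]
      calc |t| ^ 2 ≤ (M * A * (w + ε)) ^ 2 := by gcongr
        _ = (M * A) ^ 2 * (w + ε) ^ 2 := by ring
        _ ≤ (M * A) ^ 2 * (2 * (ε + w ^ 2)) := by
            have : (w + ε) ^ 2 ≤ 2 * (ε + w ^ 2) := by nlinarith [sq_nonneg (w - ε)]
            gcongr
    have h5 : u ^ 2 ≤ w ^ 2 := by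
      rw [← sq_abs]
      gcongr
    have h6 : 1 ≤ (M * A) ^ 2 := one_le_pow₀ hMA
    nlinarith [mul_nonneg (sub_nonneg.2 h6) (by positivity : (0 : ℝ) ≤ ε + w ^ 2)]
  have k2 := key u2 t2 hu2 ht2
  have k3 := key u3 t3 hu3 ht3
  have hid : D * (u2 * t3 - u3 * t2) = u2 * (α * u3 + D * t3) - u3 * (α * u2 + D * t2) := by ring
  have hMH : 0 < M * H := by positivity
  set W : ℝ := 3 * (M * A) ^ 2 * (ε + w ^ 2) with hW
  have hW0 : 0 ≤ W := by positivity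
  have hb : |D| * |u2 * t3 - u3 * t2| ≤ 2 * w * (M * H * W) := by
    rw [← abs_mul, hid]
    refine (abs_sub _ _).trans ?_
    rw [abs_mul, abs_mul]
    have e3 : |α * u3 + D * t3| ≤ M * H * W := h3.trans (by gcongr)
    have e2 : |α * u2 + D * t2| ≤ M * H * W := h2.trans (by gcongr)
    calc |u2| * |α * u3 + D * t3| + |u3| * |α * u2 + D * t2| ≤
        w * (M * H * W) + w * (M * H * W) := by gcongr
      _ = _ := by ring
  have hc : H / (2 * A) * |u2 * t3 - u3 * t2| ≤ 2 * w * (M * H * W) :=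
    (mul_le_mul_of_nonneg_right hD (abs_nonneg _)).trans hb
  have h7 : 0 < H / (2 * A) := by positivity
  refine le_of_mul_le_mul_left (hc.trans (le_of_eq ?_)) h7
  rw [hW]
  field_simp
  ring

/-- three points in a window of length `w`: the determinant is small -/
theorem thr (n : ℕ) {b : ℕ → ℕ → ℝ} {H A X ε w : ℝ} (hH : 0 < H) (hA : 1 ≤ A)
    (hb : ∀ k ≤ n, ∀ j ≤ n, |b k j| ≤ H) (hX : 6 * cM n * A ^ 2 ≤ X) (hε : ε ≤ 1 / X ^ 3)
    {u1 u2 u3 t1 t2 t3 : ℝ} (hu1 : |u1| ≤ 1 / X) (hu2 : |u2| ≤ 1 / X) (hu3 : |u3| ≤ 1 / X)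
    (ht1 : |t1| ≤ 1) (ht2 : |t2| ≤ 1) (ht3 : |t3| ≤ 1)
    (h1 : |Ph n b u1 t1| ≤ H * ε) (h2 : |Ph n b u2 t2| ≤ H * ε) (h3 : |Ph n b u3 t3| ≤ H * ε)
    (h12 : |u2 - u1| ≤ w) (h13 : |u3 - u1| ≤ w)
    (hg : ∀ t : ℝ, |t| ≤ 1 → H / A < |Ph n b 0 t| ∨ H / A < |Pht n b 0 t|)
    (g12 : ∀ z ∈ Set.uIcc t1 t2, Pht n b 0 z ≠ 0) (g13 : ∀ z ∈ Set.uIcc t1 t3, Pht n b 0 z ≠ 0) :
    |(u2 - u1) * (t3 - t1) - (u3 - u1) * (t2 - t1)| ≤ 12 * cM n ^ 3 * A ^ 3 * w * (ε + w ^ 2) := by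
  have hn : (0 : ℝ) ≤ n := Nat.cast_nonneg n
  have hM4 : 4 ≤ cM n := by unfold cM; have : 0 ≤ 4 * (n : ℝ) ^ 2 * ((n : ℝ) + 1) ^ 2 + 2 * n * ((n : ℝ) + 1) ^ 2 := by positivity
                            linarith
  have hMC : 2 * ((n : ℝ) + 1) ^ 2 * n + 4 ≤ cM n := by
    unfold cM; have : 0 ≤ 4 * (n : ℝ) ^ 2 * ((n : ℝ) + 1) ^ 2 := by positivity
    linarith
  have hA0 : 0 < A := by linarith
  have hXA : 6 * cM n * A ≤ X := by
    nlinarith [mul_nonneg (by linarith : (0 : ℝ) ≤ 6 * cM n) (mul_nonneg hA0.le (by linarith : 0 ≤ A - 1))]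
  have hX1 : 1 ≤ X := by nlinarith
  have hX0 : 0 < X := by linarith
  have hinv : 1 / X ≤ 1 := by rw [div_le_one hX0]; exact hX1
  have hε00 : 0 ≤ ε := by
    have := (abs_nonneg _).trans h1
    exact nonneg_of_mul_nonneg_right this hH
  set C := ((n : ℝ) + 1) ^ 2 * n with hC
  have hC0 : 0 ≤ C := by positivity
  have k2 := two n hH hA hb hX hε hu2 hu1 ht1 ht2 h2 h1 hg g12
  have k3 := two n hH hA hb hX hε hu3 hu1 ht1 ht3 h3 h1 hg g13
  -- the derivative at `t1`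
  have hf1 : |Ph n b 0 t1| ≤ H * ((C + 1) / X) := by
    have h1' := Ph_near n hH.le hb (hu1.trans hinv) ht1
    have hε0 : ε ≤ 1 / X := hε.trans (by
      apply one_div_le_one_div_of_le hX0
      calc X = X ^ 1 := (pow_one X).symm
        _ ≤ X ^ 3 := pow_le_pow_right₀ hX1 (by norm_num))
    calc |Ph n b 0 t1| = |Ph n b u1 t1 - (Ph n b u1 t1 - Ph n b 0 t1)| := by ring_nf
      _ ≤ |Ph n b u1 t1| + |Ph n b u1 t1 - Ph n b 0 t1| := abs_sub _ _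
      _ ≤ H * (1 / X) + ((n : ℝ) + 1) ^ 2 * (H * (n * (1 / X))) := by
          refine add_le_add (h1.trans (by gcongr)) (h1'.trans (by gcongr))
      _ = _ := by rw [hC]; ring
  have hB : H * ((C + 1) / X) < H / A := by
    rw [div_eq_mul_inv H A]
    apply mul_lt_mul_of_pos_left _ hH
    rw [div_lt_iff₀ hX0, inv_mul_eq_div, lt_div_iff₀ hA0]
    nlinarith
  have hf2 : H / A < |Pht n b 0 t1| := by
    rcases hg t1 ht1 with h | h
    · exact absurd hf1 (not_le.2 (hB.trans h))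
    · exact h
  have hD : H / (2 * A) ≤ |Pht n b u1 t1| := by
    have h5 := Pht_near n hH.le hb (hu1.trans hinv) ht1
    have h6 : ((n : ℝ) + 1) ^ 2 * (H * (n * |u1|)) ≤ H / (2 * A) := by
      calc _ ≤ ((n : ℝ) + 1) ^ 2 * (H * (n * (1 / X))) := by gcongr
        _ = H * (C * (1 / X)) := by rw [hC]; ring
        _ ≤ H * (1 / (2 * A)) := by
            have : C * (1 / X) ≤ 1 / (2 * A) := by
              rw [mul_one_div, div_le_div_iff₀ hX0 (by positivity)]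
              nlinarith
            gcongr
        _ = _ := by ring
    have h7 : |Pht n b 0 t1| ≤ |Pht n b u1 t1| + |Pht n b u1 t1 - Pht n b 0 t1| := by
      calc |Pht n b 0 t1| = |Pht n b u1 t1 - (Pht n b u1 t1 - Pht n b 0 t1)| := by ring_nf
        _ ≤ _ := abs_sub _ _
    have h8 : H / A = H / (2 * A) + H / (2 * A) := by field_simp; ring
    linarith
  have lin : ∀ u t : ℝ, |u| ≤ 1 / X → |t| ≤ 1 → |Ph n b u t| ≤ H * ε →
      |Phu n b u1 t1 * (u - u1) + Pht n b u1 t1 * (t - t1)| ≤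
        cM n * H * (ε + (u - u1) ^ 2 + (t - t1) ^ 2) := by
    intro u t hu ht h
    have h5 := Ph_taylor n hH.le hb (hu.trans hinv) (hu1.trans hinv) ht1 ht
    have h6 : |Phu n b u1 t1 * (u - u1) + Pht n b u1 t1 * (t - t1)| ≤
        |Ph n b u t - Ph n b u1 t1| + |Ph n b u t - Ph n b u1 t1 -
          (Phu n b u1 t1 * (u - u1) + Pht n b u1 t1 * (t - t1))| := by
      calc _ = |(Ph n b u t - Ph n b u1 t1) - (Ph n b u t - Ph n b u1 t1 -
          (Phu n b u1 t1 * (u - u1) + Pht n b u1 t1 * (t - t1)))| := by ring_nf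
        _ ≤ _ := abs_sub _ _
    have h7 : |Ph n b u t - Ph n b u1 t1| ≤ H * ε + H * ε :=
      (abs_sub _ _).trans (add_le_add h h1)
    have h8 : 4 * ((n : ℝ) + 1) ^ 2 * n ^ 2 ≤ cM n := by
      unfold cM
      have : 0 ≤ 2 * (n : ℝ) * ((n : ℝ) + 1) ^ 2 := by positivity
      linarith
    calc _ ≤ _ := h6
      _ ≤ (H * ε + H * ε) +
          ((n : ℝ) + 1) ^ 2 * (H * ((2 * n) ^ 2 * ((u - u1) ^ 2 + (t - t1) ^ 2))) :=
          add_le_add h7 h5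
      _ = H * (2 * ε + (4 * ((n : ℝ) + 1) ^ 2 * n ^ 2) * ((u - u1) ^ 2 + (t - t1) ^ 2)) := by ring
      _ ≤ H * (cM n * ε + cM n * ((u - u1) ^ 2 + (t - t1) ^ 2)) := by
          have : 2 ≤ cM n := by linarith
          gcongr
      _ = _ := by ring
  have hε1 : ε ≤ 1 := hε.trans (by
    rw [div_le_one (by positivity)]
    exact one_le_pow₀ hX1)
  exact core2 (by linarith) hH hA hε00 hε1 hD (lin u2 t2 hu2 ht2 h2) (lin u3 t3 hu3 ht3 h3)
    h12 h13 k2 k3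

end Pool.Agent.H6.AB
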