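import Mathlib

/-!
# Three points near a curve: real analysis
-/

namespace Pool.Agent.H6.AB

/-- second order expansion of a power -/
theorem pow_taylor (m : ℕ) (s t : ℝ) (hs : |s| ≤ 1) (ht : |t| ≤ 1) :
    |t ^ m - s ^ m - m * s ^ (m - 1) * (t - s)| ≤ (m : ℝ) ^ 2 * (t - s) ^ 2 := by
  induction m with
  | zero => simp
  | succ m ih =>
    rcases Nat.eq_zero_or_pos m with rfl | hm
    · simp
      positivity
    have h1 : t ^ (m + 1) - s ^ (m + 1) - ((m + 1 : ℕ) : ℝ) * s ^ (m + 1 - 1) * (t - s) =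
        t * (t ^ m - s ^ m - m * s ^ (m - 1) * (t - s)) + m * s ^ (m - 1) * (t - s) ^ 2 := by
      obtain ⟨k, rfl⟩ : ∃ k, m = k + 1 := ⟨m - 1, by omega⟩
      simp only [Nat.add_sub_cancel]
      push_cast
      ring
    rw [h1]
    have h2 : |t * (t ^ m - s ^ m - m * s ^ (m - 1) * (t - s))| ≤ (m : ℝ) ^ 2 * (t - s) ^ 2 := by
      rw [abs_mul]
      calc |t| * _ ≤ 1 * ((m : ℝ) ^ 2 * (t - s) ^ 2) := by gcongr
        _ = _ := by ring
    have h3 : |(m : ℝ) * s ^ (m - 1) * (t - s) ^ 2| ≤ m * (t - s) ^ 2 := by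
      rw [abs_mul, abs_mul, abs_pow, abs_of_nonneg (sq_nonneg (t - s)), Nat.abs_cast]
      have : |s| ^ (m - 1) ≤ 1 := pow_le_one₀ (abs_nonneg _) hs
      calc (m : ℝ) * |s| ^ (m - 1) * (t - s) ^ 2 ≤ m * 1 * (t - s) ^ 2 := by gcongr
        _ = _ := by ring
    calc _ ≤ _ := abs_add_le _ _
      _ ≤ (m : ℝ) ^ 2 * (t - s) ^ 2 + m * (t - s) ^ 2 := add_le_add h2 h3
      _ ≤ (((m + 1 : ℕ) : ℝ)) ^ 2 * (t - s) ^ 2 := by
        push_cast
        nlinarith [sq_nonneg (t - s), (Nat.cast_nonneg m : (0 : ℝ) ≤ m)]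

/-- first order expansion of a power -/
theorem pow_lip (m : ℕ) (s t : ℝ) (hs : |s| ≤ 1) (ht : |t| ≤ 1) :
    |t ^ m - s ^ m| ≤ (m : ℝ) * |t - s| := by
  induction m with
  | zero => simp
  | succ m ih =>
    have h1 : t ^ (m + 1) - s ^ (m + 1) = t * (t ^ m - s ^ m) + s ^ m * (t - s) := by ring
    rw [h1]
    have h2 : |t * (t ^ m - s ^ m)| ≤ (m : ℝ) * |t - s| := by
      rw [abs_mul]
      calc |t| * _ ≤ 1 * ((m : ℝ) * |t - s|) := by gcongr
        _ = _ := by ring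
    have h3 : |s ^ m * (t - s)| ≤ |t - s| := by
      rw [abs_mul, abs_pow]
      have : |s| ^ m ≤ 1 := pow_le_one₀ (abs_nonneg _) hs
      calc |s| ^ m * |t - s| ≤ 1 * |t - s| := by gcongr
        _ = _ := by ring
    calc _ ≤ _ := abs_add_le _ _
      _ ≤ (m : ℝ) * |t - s| + |t - s| := add_le_add h2 h3
      _ = _ := by push_cast; ring

/-- the inequality at the end of the three point argument -/
theorem core {M H A X K ε D α u2 t2 u3 t3 : ℝ} (hM : 4 ≤ M) (hH : 0 < H) (hA : 1 ≤ A)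
    (hK : 6 * M ≤ K) (hX : K * A ^ 2 ≤ X) (hε : ε ≤ 1 / X ^ 3)
    (hD : H / (2 * A) ≤ |D|)
    (h2 : |α * u2 + D * t2| ≤ M * H * (ε + u2 ^ 2 + t2 ^ 2))
    (h3 : |α * u3 + D * t3| ≤ M * H * (ε + u3 ^ 2 + t3 ^ 2))
    (hu2 : |u2| ≤ 1 / (K * A * X)) (hu3 : |u3| ≤ 1 / (K * A * X))
    (ht2 : |t2| ≤ M * A * (|u2| + ε)) (ht3 : |t3| ≤ M * A * (|u3| + ε)) :
    8 * X ^ 3 * |u2 * t3 - u3 * t2| < 1 := by
  have hK0 : 0 < K := by linarith
  have hK1 : 1 ≤ K := by linarith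
  have hA0 : 0 < A := by linarith
  have hXK : K ≤ X := by nlinarith [mul_nonneg hK0.le (sq_nonneg (A - 1))]
  have hXKA : K * A ≤ X := by nlinarith [mul_nonneg hK0.le (sq_nonneg (A - 1))]
  have hX1 : 1 ≤ X := by linarith
  have hX0 : 0 < X := by linarith
  have hM0 : 0 < M := by linarith
  have hKX : 0 < K * X := by positivity
  have hKAX : 0 < K * A * X := by positivity
  have hε1 : ε ≤ 1 / (K * A * X) := by
    refine hε.trans ?_
    apply one_div_le_one_div_of_le hKAX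
    calc K * A * X ≤ X * X := by gcongr
      _ ≤ X * X * X := le_mul_of_one_le_right (by positivity) hX1
      _ = X ^ 3 := by ring
  have hδ : A * (1 / (K * A * X)) = 1 / (K * X) := by field_simp
  have hδ2 : 1 / (K * A * X) ≤ 1 / (K * X) := by
    apply one_div_le_one_div_of_le hKX
    nlinarith [mul_nonneg hK0.le (mul_nonneg hX0.le (sub_nonneg.2 hA))]
  -- the bounds of u and t
  have key : ∀ u t : ℝ, |u| ≤ 1 / (K * A * X) → |t| ≤ M * A * (|u| + ε) →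
      ε + u ^ 2 + t ^ 2 ≤ 1 / X ^ 3 + 5 * M ^ 2 * (1 / (K * X) ^ 2) := by
    intro u t hu ht
    have h1 : |t| ≤ 2 * M * (1 / (K * X)) := by
      calc |t| ≤ M * A * (|u| + ε) := ht
        _ ≤ M * A * (1 / (K * A * X) + 1 / (K * A * X)) := by gcongr
        _ = 2 * M * (A * (1 / (K * A * X))) := by ring
        _ = _ := by rw [hδ]
    have h4 : t ^ 2 ≤ 4 * M ^ 2 * (1 / (K * X) ^ 2) := by
      rw [← sq_abs]
      calc |t| ^ 2 ≤ (2 * M * (1 / (K * X))) ^ 2 := by gcongr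
        _ = _ := by field_simp; ring
    have h5 : u ^ 2 ≤ 1 / (K * X) ^ 2 := by
      rw [← sq_abs]
      calc |u| ^ 2 ≤ (1 / (K * X)) ^ 2 := by
            have := hu.trans hδ2
            gcongr
        _ = _ := by field_simp
    have h6 : 0 ≤ 1 / (K * X) ^ 2 := by positivity
    nlinarith [mul_nonneg h6 (by nlinarith : (0 : ℝ) ≤ M ^ 2 - 1)]
  have k2 := key u2 t2 hu2 ht2
  have k3 := key u3 t3 hu3 ht3
  have hid : D * (u2 * t3 - u3 * t2) = u2 * (α * u3 + D * t3) - u3 * (α * u2 + D * t2) := by ring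
  have hMH : 0 < M * H := by positivity
  set W : ℝ := 1 / X ^ 3 + 5 * M ^ 2 * (1 / (K * X) ^ 2) with hW
  have hW0 : 0 ≤ W := by positivity
  have hb : |D| * |u2 * t3 - u3 * t2| ≤ 2 * (1 / (K * A * X)) * (M * H * W) := by
    rw [← abs_mul, hid]
    refine (abs_sub _ _).trans ?_
    rw [abs_mul, abs_mul]
    have e3 : |α * u3 + D * t3| ≤ M * H * W := h3.trans (by gcongr)
    have e2 : |α * u2 + D * t2| ≤ M * H * W := h2.trans (by gcongr)
    calc |u2| * |α * u3 + D * t3| + |u3| * |α * u2 + D * t2| ≤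
        1 / (K * A * X) * (M * H * W) + 1 / (K * A * X) * (M * H * W) := by gcongr
      _ = _ := by ring
  have hc : H / (2 * A) * |u2 * t3 - u3 * t2| ≤ 2 * (1 / (K * A * X)) * (M * H * W) :=
    (mul_le_mul_of_nonneg_right hD (abs_nonneg _)).trans hb
  have hd : |u2 * t3 - u3 * t2| ≤ 4 * M * W / (K * X) := by
    have h7 : 0 < H / (2 * A) := by positivity
    refine le_of_mul_le_mul_left (hc.trans (le_of_eq ?_)) h7
    field_simp
    ring
  have q1 : M / K ≤ 1 / 6 := by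
    rw [div_le_div_iff₀ hK0 (by norm_num)]
    linarith
  have q2 : 1 / X ≤ 1 / 24 := by
    apply one_div_le_one_div_of_le (by norm_num)
    linarith
  have q0 : 0 ≤ M / K := by positivity
  calc 8 * X ^ 3 * |u2 * t3 - u3 * t2| ≤ 8 * X ^ 3 * (4 * M * W / (K * X)) := by gcongr
    _ = 32 * (M / K) * (1 / X) + 160 * (M / K) ^ 3 := by rw [hW]; field_simp; ring
    _ ≤ 32 * (1 / 6) * (1 / 24) + 160 * (1 / 6) ^ 3 := by gcongr
    _ < 1 := by norm_num

theorem mon_taylor (k j : ℕ) {u v s t : ℝ} (hu : |u| ≤ 1) (hv : |v| ≤ 1) (hs : |s| ≤ 1)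
    (ht : |t| ≤ 1) :
    |u ^ k * t ^ j - v ^ k * s ^ j - (k * v ^ (k - 1) * s ^ j * (u - v) +
      j * v ^ k * s ^ (j - 1) * (t - s))| ≤ ((k : ℝ) + j) ^ 2 * ((u - v) ^ 2 + (t - s) ^ 2) := by
  have hk : (0 : ℝ) ≤ k := Nat.cast_nonneg k
  have hj : (0 : ℝ) ≤ j := Nat.cast_nonneg j
  have e : u ^ k * t ^ j - v ^ k * s ^ j - (k * v ^ (k - 1) * s ^ j * (u - v) +
      j * v ^ k * s ^ (j - 1) * (t - s)) =
      (u ^ k - v ^ k - k * v ^ (k - 1) * (u - v)) * s ^ j +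
      u ^ k * (t ^ j - s ^ j - j * s ^ (j - 1) * (t - s)) +
      (u ^ k - v ^ k) * (j * s ^ (j - 1) * (t - s)) := by ring
  rw [e]
  have h1 : |(u ^ k - v ^ k - k * v ^ (k - 1) * (u - v)) * s ^ j| ≤ (k : ℝ) ^ 2 * (u - v) ^ 2 := by
    rw [abs_mul, abs_pow]
    have : |s| ^ j ≤ 1 := pow_le_one₀ (abs_nonneg _) hs
    calc _ ≤ (k : ℝ) ^ 2 * (u - v) ^ 2 * 1 := by
          have := pow_taylor k v u hv hu
          gcongr
      _ = _ := by ring
  have h2 : |u ^ k * (t ^ j - s ^ j - j * s ^ (j - 1) * (t - s))| ≤ (j : ℝ) ^ 2 * (t - s) ^ 2 := by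
    rw [abs_mul, abs_pow]
    have : |u| ^ k ≤ 1 := pow_le_one₀ (abs_nonneg _) hu
    calc _ ≤ 1 * ((j : ℝ) ^ 2 * (t - s) ^ 2) := by
          have := pow_taylor j s t hs ht
          gcongr
      _ = _ := by ring
  have h3 : |(u ^ k - v ^ k) * (j * s ^ (j - 1) * (t - s))| ≤
      (k : ℝ) * j * (|u - v| * |t - s|) := by
    rw [abs_mul, abs_mul, abs_mul, abs_pow, Nat.abs_cast]
    have h4 : |s| ^ (j - 1) ≤ 1 := pow_le_one₀ (abs_nonneg _) hs
    have h5 := pow_lip k v u hv hu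
    calc _ ≤ ((k : ℝ) * |u - v|) * (j * 1 * |t - s|) := by gcongr
      _ = _ := by ring
  have h6 : |u - v| * |t - s| ≤ ((u - v) ^ 2 + (t - s) ^ 2) / 2 := by
    have := two_mul_le_add_sq |u - v| |t - s|
    rw [sq_abs, sq_abs] at this
    linarith
  have h7 : (k : ℝ) * j * (|u - v| * |t - s|) ≤
      (k : ℝ) * j * (((u - v) ^ 2 + (t - s) ^ 2) / 2) := by gcongr
  calc _ ≤ _ := abs_add_three _ _ _
    _ ≤ (k : ℝ) ^ 2 * (u - v) ^ 2 + (j : ℝ) ^ 2 * (t - s) ^ 2 +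
        (k : ℝ) * j * (((u - v) ^ 2 + (t - s) ^ 2) / 2) :=
        add_le_add (add_le_add h1 h2) (h3.trans h7)
    _ ≤ _ := by
        have a1 : 0 ≤ (k : ℝ) ^ 2 * (t - s) ^ 2 := by positivity
        have a2 : 0 ≤ (j : ℝ) ^ 2 * (u - v) ^ 2 := by positivity
        have a3 : 0 ≤ (k : ℝ) * j * (u - v) ^ 2 := by positivity
        have a4 : 0 ≤ (k : ℝ) * j * (t - s) ^ 2 := by positivity
        nlinarith

/-- `Φ (u, t) = sum b k j u ^ k t ^ j` over `k, j ≤ n` -/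
noncomputable def Ph (n : ℕ) (b : ℕ → ℕ → ℝ) (u t : ℝ) : ℝ :=
  ∑ k ∈ Finset.range (n + 1), ∑ j ∈ Finset.range (n + 1), b k j * (u ^ k * t ^ j)

noncomputable def Phu (n : ℕ) (b : ℕ → ℕ → ℝ) (u t : ℝ) : ℝ :=
  ∑ k ∈ Finset.range (n + 1), ∑ j ∈ Finset.range (n + 1), b k j * (k * u ^ (k - 1) * t ^ j)

noncomputable def Pht (n : ℕ) (b : ℕ → ℕ → ℝ) (u t : ℝ) : ℝ :=
  ∑ k ∈ Finset.range (n + 1), ∑ j ∈ Finset.range (n + 1), b k j * (j * u ^ k * t ^ (j - 1))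

theorem sum_bound (n : ℕ) {b : ℕ → ℕ → ℝ} {H : ℝ} (hH : 0 ≤ H)
    (hb : ∀ k ≤ n, ∀ j ≤ n, |b k j| ≤ H) (g : ℕ → ℕ → ℝ) {B : ℝ}
    (hg : ∀ k ≤ n, ∀ j ≤ n, |g k j| ≤ B) :
    |∑ k ∈ Finset.range (n + 1), ∑ j ∈ Finset.range (n + 1), b k j * g k j| ≤
      ((n : ℝ) + 1) ^ 2 * (H * B) := by
  have h1 : ∀ k ∈ Finset.range (n + 1), |∑ j ∈ Finset.range (n + 1), b k j * g k j| ≤
      ((n : ℝ) + 1) * (H * B) := by
    intro k hk
    have hk' : k ≤ n := Nat.lt_succ_iff.1 (Finset.mem_range.1 hk)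
    refine (Finset.abs_sum_le_sum_abs _ _).trans ?_
    calc _ ≤ ∑ j ∈ Finset.range (n + 1), H * B := by
          apply Finset.sum_le_sum
          intro j hj
          have hj' : j ≤ n := Nat.lt_succ_iff.1 (Finset.mem_range.1 hj)
          rw [abs_mul]
          exact mul_le_mul (hb k hk' j hj') (hg k hk' j hj') (abs_nonneg _) hH
      _ = _ := by rw [Finset.sum_const, Finset.card_range, nsmul_eq_mul]; push_cast; ring
  refine (Finset.abs_sum_le_sum_abs _ _).trans ?_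
  calc _ ≤ ∑ k ∈ Finset.range (n + 1), ((n : ℝ) + 1) * (H * B) := Finset.sum_le_sum h1
    _ = _ := by rw [Finset.sum_const, Finset.card_range, nsmul_eq_mul]; push_cast; ring

theorem Ph_taylor (n : ℕ) {b : ℕ → ℕ → ℝ} {H : ℝ} (hH : 0 ≤ H)
    (hb : ∀ k ≤ n, ∀ j ≤ n, |b k j| ≤ H) {u v s t : ℝ} (hu : |u| ≤ 1) (hv : |v| ≤ 1)
    (hs : |s| ≤ 1) (ht : |t| ≤ 1) :
    |Ph n b u t - Ph n b v s - (Phu n b v s * (u - v) + Pht n b v s * (t - s))| ≤
      ((n : ℝ) + 1) ^ 2 * (H * ((2 * n) ^ 2 * ((u - v) ^ 2 + (t - s) ^ 2))) := by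
  have e : Ph n b u t - Ph n b v s - (Phu n b v s * (u - v) + Pht n b v s * (t - s)) =
      ∑ k ∈ Finset.range (n + 1), ∑ j ∈ Finset.range (n + 1), b k j *
        (u ^ k * t ^ j - v ^ k * s ^ j - (k * v ^ (k - 1) * s ^ j * (u - v) +
      j * v ^ k * s ^ (j - 1) * (t - s))) := by
    unfold Ph Phu Pht
    rw [Finset.sum_mul, Finset.sum_mul, ← Finset.sum_sub_distrib, ← Finset.sum_add_distrib,
      ← Finset.sum_sub_distrib]
    apply Finset.sum_congr rfl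
    intro k _
    rw [Finset.sum_mul, Finset.sum_mul, ← Finset.sum_sub_distrib, ← Finset.sum_add_distrib,
      ← Finset.sum_sub_distrib]
    apply Finset.sum_congr rfl
    intro j _
    ring
  rw [e]
  apply sum_bound n hH hb
  intro k hk j hj
  refine (mon_taylor k j hu hv hs ht).trans ?_
  have hk' : (k : ℝ) ≤ n := by exact_mod_cast hk
  have hj' : (j : ℝ) ≤ n := by exact_mod_cast hj
  have : (k : ℝ) + j ≤ 2 * n := by linarith
  gcongr

/-- `Φ_t (u, t)` is near to `Φ_t (0, t)` -/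
theorem Pht_near (n : ℕ) {b : ℕ → ℕ → ℝ} {H : ℝ} (hH : 0 ≤ H)
    (hb : ∀ k ≤ n, ∀ j ≤ n, |b k j| ≤ H) {u t : ℝ} (hu : |u| ≤ 1) (ht : |t| ≤ 1) :
    |Pht n b u t - Pht n b 0 t| ≤ ((n : ℝ) + 1) ^ 2 * (H * (n * |u|)) := by
  have e : Pht n b u t - Pht n b 0 t =
      ∑ k ∈ Finset.range (n + 1), ∑ j ∈ Finset.range (n + 1), b k j *
        ((u ^ k - 0 ^ k) * (j * t ^ (j - 1))) := by
    unfold Pht
    rw [← Finset.sum_sub_distrib]
    apply Finset.sum_congr rfl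
    intro k _
    rw [← Finset.sum_sub_distrib]
    apply Finset.sum_congr rfl
    intro j _
    ring
  rw [e]
  apply sum_bound n hH hb
  intro k _ j hj
  have hj' : (j : ℝ) ≤ n := by exact_mod_cast hj
  have h1 : |u ^ k - 0 ^ k| ≤ |u| := by
    rcases Nat.eq_zero_or_pos k with rfl | hk
    · simp
    · rw [zero_pow (by omega), sub_zero, abs_pow]
      exact pow_le_of_le_one (abs_nonneg _) hu (by omega)
  have h2 : |(j : ℝ) * t ^ (j - 1)| ≤ n := by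
    rw [abs_mul, abs_pow, Nat.abs_cast]
    have : |t| ^ (j - 1) ≤ 1 := pow_le_one₀ (abs_nonneg _) ht
    calc (j : ℝ) * |t| ^ (j - 1) ≤ n * 1 := by gcongr
      _ = n := by ring
  rw [abs_mul]
  calc _ ≤ |u| * n := by gcongr
    _ = _ := by ring

/-- `Φ (u, t) - Φ (0, t)` is Lipschitz -/
theorem Ph_rest (n : ℕ) {b : ℕ → ℕ → ℝ} {H : ℝ} (hH : 0 ≤ H)
    (hb : ∀ k ≤ n, ∀ j ≤ n, |b k j| ≤ H) {u v s t : ℝ} (hu : |u| ≤ 1) (hv : |v| ≤ 1)
    (hs : |s| ≤ 1) (ht : |t| ≤ 1) :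
    |(Ph n b u t - Ph n b 0 t) - (Ph n b v s - Ph n b 0 s)| ≤
      ((n : ℝ) + 1) ^ 2 * (H * (n * (|u - v| + |v| * |t - s|))) := by
  have e : (Ph n b u t - Ph n b 0 t) - (Ph n b v s - Ph n b 0 s) =
      ∑ k ∈ Finset.range (n + 1), ∑ j ∈ Finset.range (n + 1), b k j *
        ((u ^ k - v ^ k) * t ^ j + (v ^ k - 0 ^ k) * (t ^ j - s ^ j)) := by
    unfold Ph
    rw [← Finset.sum_sub_distrib, ← Finset.sum_sub_distrib, ← Finset.sum_sub_distrib]
    apply Finset.sum_congr rfl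
    intro k _
    rw [← Finset.sum_sub_distrib, ← Finset.sum_sub_distrib, ← Finset.sum_sub_distrib]
    apply Finset.sum_congr rfl
    intro j _
    ring
  rw [e]
  apply sum_bound n hH hb
  intro k hk j hj
  have hk' : (k : ℝ) ≤ n := by exact_mod_cast hk
  have hj' : (j : ℝ) ≤ n := by exact_mod_cast hj
  have h1 : |v ^ k - 0 ^ k| ≤ |v| := by
    rcases Nat.eq_zero_or_pos k with rfl | hk
    · simp
    · rw [zero_pow (by omega), sub_zero, abs_pow]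
      exact pow_le_of_le_one (abs_nonneg _) hv (by omega)
  have h2 : |u ^ k - v ^ k| ≤ n * |u - v| :=
    (pow_lip k v u hv hu).trans (by gcongr)
  have h3 : |t ^ j - s ^ j| ≤ n * |t - s| :=
    (pow_lip j s t hs ht).trans (by gcongr)
  have h4 : |t ^ j| ≤ 1 := by rw [abs_pow]; exact pow_le_one₀ (abs_nonneg _) ht
  calc _ ≤ _ := abs_add_le _ _
    _ ≤ n * |u - v| * 1 + |v| * (n * |t - s|) := by
        rw [abs_mul, abs_mul]
        gcongr
    _ = _ := by ring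

/-- a function without critical point between `a` and `b` lies between its values at the ends -/
theorem no_crit {f f' : ℝ → ℝ} (hf : ∀ t, HasDerivAt f (f' t) t) {a b t : ℝ} (hab : a ≤ b)
    (ht : t ∈ Set.Icc a b) (h0 : ∀ s ∈ Set.Icc a b, f' s ≠ 0) {B : ℝ} (ha : |f a| ≤ B)
    (hb : |f b| ≤ B) : |f t| ≤ B := by
  have hc : ContinuousOn f (Set.Icc a b) := fun s _ => (hf s).continuousAt.continuousWithinAt
  have hne : (Set.Icc a b).Nonempty := ⟨a, ⟨le_rfl, hab⟩⟩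
  obtain ⟨c, hc1, hc2⟩ := isCompact_Icc.exists_isMaxOn hne hc
  obtain ⟨d, hd1, hd2⟩ := isCompact_Icc.exists_isMinOn hne hc
  have up : f t ≤ B := by
    by_contra hlt
    push Not at hlt
    have h1 : B < f c := lt_of_lt_of_le hlt (hc2 ht)
    have hca : c ≠ a := by
      rintro rfl
      exact absurd ((le_abs_self _).trans ha) (not_le.2 h1)
    have hcb : c ≠ b := by
      rintro rfl
      exact absurd ((le_abs_self _).trans hb) (not_le.2 h1)
    have hmem : Set.Icc a b ∈ nhds c :=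
      Icc_mem_nhds (lt_of_le_of_ne hc1.1 (Ne.symm hca)) (lt_of_le_of_ne hc1.2 hcb)
    exact h0 c hc1 ((hc2.isLocalMax hmem).hasDerivAt_eq_zero (hf c))
  have lo : -B ≤ f t := by
    by_contra hlt
    push Not at hlt
    have h1 : f d < -B := lt_of_le_of_lt (hd2 ht) hlt
    have hca : d ≠ a := by
      rintro rfl
      have := (neg_abs_le (f d)).trans_lt h1
      linarith
    have hcb : d ≠ b := by
      rintro rfl
      have := (neg_abs_le (f d)).trans_lt h1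
      linarith
    have hmem : Set.Icc a b ∈ nhds d :=
      Icc_mem_nhds (lt_of_le_of_ne hd1.1 (Ne.symm hca)) (lt_of_le_of_ne hd1.2 hcb)
    exact h0 d hd1 ((hd2.isLocalMin hmem).hasDerivAt_eq_zero (hf d))
  exact abs_le.2 ⟨lo, up⟩

/-- lower bound of a difference -/
theorem diff_lower {f f' : ℝ → ℝ} (hf : ∀ t, HasDerivAt f (f' t) t) {a b : ℝ}
    {B L : ℝ} (hB : B < L) (hg : ∀ t ∈ Set.uIcc a b, L < |f t| ∨ L < |f' t|)
    (h0 : ∀ s ∈ Set.uIcc a b, f' s ≠ 0) (ha : |f a| ≤ B) (hb : |f b| ≤ B) :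
    L * |b - a| ≤ |f b - f a| := by
  wlog hab : a ≤ b generalizing a b with W
  · rw [abs_sub_comm b a, abs_sub_comm (f b) (f a)]
    rw [Set.uIcc_comm] at hg h0
    exact W hg h0 hb ha (le_of_not_ge hab)
  rw [Set.uIcc_of_le hab] at hg h0
  rcases eq_or_lt_of_le hab with rfl | hlt
  · simp
  obtain ⟨c, hc1, hc2⟩ := exists_hasDerivAt_eq_slope f f' hlt
    (fun s _ => (hf s).continuousAt.continuousWithinAt) (fun s _ => hf s)
  have hc3 : c ∈ Set.Icc a b := Set.Ioo_subset_Icc_self hc1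
  have hc4 : L < |f' c| := by
    rcases hg c hc3 with h | h
    · exact absurd (no_crit hf hab hc3 h0 ha hb) (not_le.2 (hB.trans h))
    · exact h
  have hba : 0 < b - a := sub_pos.2 hlt
  have h5 : f b - f a = f' c * (b - a) := by
    rw [hc2]; field_simp
  rw [h5, abs_mul]
  exact mul_le_mul_of_nonneg_right hc4.le (abs_nonneg _)

theorem hasDerivAt_Ph (n : ℕ) (b : ℕ → ℕ → ℝ) (u t : ℝ) :
    HasDerivAt (fun t => Ph n b u t) (Pht n b u t) t := by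
  unfold Ph Pht
  apply HasDerivAt.fun_sum
  intro k _
  apply HasDerivAt.fun_sum
  intro j _
  have h := ((hasDerivAt_pow j t).const_mul (u ^ k)).const_mul (b k j)
  have e : b k j * (j * u ^ k * t ^ (j - 1)) = b k j * (u ^ k * (j * t ^ (j - 1))) := by ring
  rw [e]
  exact h

/-- the constant -/
noncomputable def cM (n : ℕ) : ℝ := 4 + 4 * (n : ℝ) ^ 2 * ((n : ℝ) + 1) ^ 2 + 2 * n * ((n : ℝ) + 1) ^ 2

theorem Ph_near (n : ℕ) {b : ℕ → ℕ → ℝ} {H : ℝ} (hH : 0 ≤ H)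
    (hb : ∀ k ≤ n, ∀ j ≤ n, |b k j| ≤ H) {u t : ℝ} (hu : |u| ≤ 1) (ht : |t| ≤ 1) :
    |Ph n b u t - Ph n b 0 t| ≤ ((n : ℝ) + 1) ^ 2 * (H * (n * |u|)) := by
  have := Ph_rest n hH hb hu (v := 0) (by simp) ht ht
  simpa using this

/-- two points: the difference of `t` is at most a constant times `A` times that of `u` -/
theorem two (n : ℕ) {b : ℕ → ℕ → ℝ} {H A X ε : ℝ} (hH : 0 < H) (hA : 1 ≤ A)
    (hb : ∀ k ≤ n, ∀ j ≤ n, |b k j| ≤ H) (hX : 6 * cM n * A ^ 2 ≤ X) (hε : ε ≤ 1 / X ^ 3)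
    {u v s t : ℝ} (hu : |u| ≤ 1 / X) (hv : |v| ≤ 1 / X) (hs : |s| ≤ 1) (ht : |t| ≤ 1)
    (hut : |Ph n b u t| ≤ H * ε) (hvs : |Ph n b v s| ≤ H * ε)
    (hg : ∀ t : ℝ, |t| ≤ 1 → H / A < |Ph n b 0 t| ∨ H / A < |Pht n b 0 t|)
    (h0 : ∀ z ∈ Set.uIcc s t, Pht n b 0 z ≠ 0) :
    |t - s| ≤ cM n * A * (|u - v| + ε) := by
  have hn : (0 : ℝ) ≤ n := Nat.cast_nonneg n
  have hM4 : 4 ≤ cM n := by unfold cM; have : 0 ≤ 4 * (n : ℝ) ^ 2 * ((n : ℝ) + 1) ^ 2 + 2 * n * ((n : ℝ) + 1) ^ 2 := by positivity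
                            linarith
  have hMC : 2 * ((n : ℝ) + 1) ^ 2 * n + 4 ≤ cM n := by
    unfold cM; have : 0 ≤ 4 * (n : ℝ) ^ 2 * ((n : ℝ) + 1) ^ 2 := by positivity
    linarith
  have hA0 : 0 < A := by linarith
  have hXA : 6 * cM n * A ≤ X := by
    nlinarith [mul_nonneg (by linarith : (0 : ℝ) ≤ 6 * cM n) (mul_nonneg hA0.le (by linarith : 0 ≤ A - 1))]
  have hX1 : 1 ≤ X := by nlinarith
  have hX0 : 0 < X := by linarith
  have hε0 : ε ≤ 1 / X := hε.trans (by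
    apply one_div_le_one_div_of_le hX0
    calc X = X ^ 1 := (pow_one X).symm
      _ ≤ X ^ 3 := pow_le_pow_right₀ hX1 (by norm_num))
  have hinv : 1 / X ≤ 1 := by rw [div_le_one hX0]; exact hX1
  set C := ((n : ℝ) + 1) ^ 2 * n with hC
  have hC0 : 0 ≤ C := by positivity
  have nearf : ∀ u t : ℝ, |u| ≤ 1 / X → |t| ≤ 1 → |Ph n b u t| ≤ H * ε →
      |Ph n b 0 t| ≤ H * ((C + 1) / X) := by
    intro u t hu ht h
    have h1 := Ph_near n hH.le hb (hu.trans hinv) ht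
    calc |Ph n b 0 t| = |Ph n b u t - (Ph n b u t - Ph n b 0 t)| := by ring_nf
      _ ≤ |Ph n b u t| + |Ph n b u t - Ph n b 0 t| := abs_sub _ _
      _ ≤ H * (1 / X) + ((n : ℝ) + 1) ^ 2 * (H * (n * (1 / X))) := by
          refine add_le_add (h.trans (by gcongr)) (h1.trans (by gcongr))
      _ = _ := by rw [hC]; ring
  have hB : H * ((C + 1) / X) < H / A := by
    rw [div_eq_mul_inv H A]
    apply mul_lt_mul_of_pos_left _ hH
    rw [div_lt_iff₀ hX0, inv_mul_eq_div, lt_div_iff₀ hA0]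
    nlinarith
  have hlow := diff_lower (f := fun t => Ph n b 0 t) (f' := fun t => Pht n b 0 t)
    (fun t => hasDerivAt_Ph n b 0 t) (a := s) (b := t) hB
    (fun z hz => hg z (by
      rcases le_total s t with h | h
      · rw [Set.uIcc_of_le h] at hz
        exact abs_le.2 ⟨(abs_le.1 hs).1.trans hz.1, hz.2.trans (abs_le.1 ht).2⟩
      · rw [Set.uIcc_of_ge h] at hz
        exact abs_le.2 ⟨(abs_le.1 ht).1.trans hz.1, hz.2.trans (abs_le.1 hs).2⟩)) h0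
    (nearf v s hv hs hvs) (nearf u t hu ht hut)
  have hup : |Ph n b 0 t - Ph n b 0 s| ≤ H * (2 * ε + C * (|u - v| + 1 / X * |t - s|)) := by
    have h1 := Ph_rest n hH.le hb (hu.trans hinv) (hv.trans hinv) hs ht
    calc |Ph n b 0 t - Ph n b 0 s| = |(Ph n b u t - Ph n b v s) -
          ((Ph n b u t - Ph n b 0 t) - (Ph n b v s - Ph n b 0 s))| := by ring_nf
      _ ≤ |Ph n b u t - Ph n b v s| +
          |(Ph n b u t - Ph n b 0 t) - (Ph n b v s - Ph n b 0 s)| := abs_sub _ _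
      _ ≤ (H * ε + H * ε) + ((n : ℝ) + 1) ^ 2 * (H * (n * (|u - v| + 1 / X * |t - s|))) := by
          refine add_le_add ((abs_sub _ _).trans (add_le_add hut hvs)) (h1.trans (by gcongr))
      _ = _ := by rw [hC]; ring
  have h2 : H / A * |t - s| ≤ H * (2 * ε + C * (|u - v| + 1 / X * |t - s|)) := hlow.trans hup
  have h3 : 1 / A * |t - s| ≤ 2 * ε + C * (|u - v| + 1 / X * |t - s|) := by
    refine le_of_mul_le_mul_left (le_of_eq_of_le ?_ h2) hH
    ring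
  have h4 : C * (1 / X) ≤ 1 / (2 * A) := by
    rw [mul_one_div, div_le_div_iff₀ hX0 (by positivity)]
    nlinarith
  have h5 : C * (1 / X) * |t - s| ≤ 1 / (2 * A) * |t - s| :=
    mul_le_mul_of_nonneg_right h4 (abs_nonneg _)
  have h6 : 1 / (2 * A) * |t - s| ≤ 2 * ε + C * |u - v| := by
    have : 1 / A * |t - s| = 1 / (2 * A) * |t - s| + 1 / (2 * A) * |t - s| := by field_simp; ring
    nlinarith
  have hε00 : 0 ≤ ε := by
    have := (abs_nonneg _).trans hut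
    exact nonneg_of_mul_nonneg_right this hH
  have h7 : |t - s| ≤ 2 * A * (2 * ε + C * |u - v|) := by
    calc |t - s| = 2 * A * (1 / (2 * A) * |t - s|) := by field_simp
      _ ≤ _ := by gcongr
  calc |t - s| ≤ 2 * A * (2 * ε + C * |u - v|) := h7
    _ = A * (4 * ε + 2 * C * |u - v|) := by ring
    _ ≤ A * (cM n * ε + cM n * |u - v|) := by
        have : 2 * C ≤ cM n := by rw [hC]; linarith
        gcongr
    _ = _ := by ring

/-- three points: the determinant is small -/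
theorem three (n : ℕ) {b : ℕ → ℕ → ℝ} {H A X ε : ℝ} (hH : 0 < H) (hA : 1 ≤ A)
    (hb : ∀ k ≤ n, ∀ j ≤ n, |b k j| ≤ H) (hX : 6 * cM n * A ^ 2 ≤ X) (hε : ε ≤ 1 / X ^ 3)
    {u1 u2 u3 t1 t2 t3 : ℝ} (hu1 : |u1| ≤ 1 / X) (hu2 : |u2| ≤ 1 / X) (hu3 : |u3| ≤ 1 / X)
    (ht1 : |t1| ≤ 1) (ht2 : |t2| ≤ 1) (ht3 : |t3| ≤ 1)
    (h1 : |Ph n b u1 t1| ≤ H * ε) (h2 : |Ph n b u2 t2| ≤ H * ε) (h3 : |Ph n b u3 t3| ≤ H * ε)
    (h12 : |u2 - u1| ≤ 1 / (6 * cM n * A * X)) (h13 : |u3 - u1| ≤ 1 / (6 * cM n * A * X))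
    (hg : ∀ t : ℝ, |t| ≤ 1 → H / A < |Ph n b 0 t| ∨ H / A < |Pht n b 0 t|)
    (g12 : ∀ z ∈ Set.uIcc t1 t2, Pht n b 0 z ≠ 0) (g13 : ∀ z ∈ Set.uIcc t1 t3, Pht n b 0 z ≠ 0) :
    8 * X ^ 3 * |(u2 - u1) * (t3 - t1) - (u3 - u1) * (t2 - t1)| < 1 := by
  have hn : (0 : ℝ) ≤ n := Nat.cast_nonneg n
  have hM4 : 4 ≤ cM n := by unfold cM; have : 0 ≤ 4 * (n : ℝ) ^ 2 * ((n : ℝ) + 1) ^ 2 + 2 * n * ((n : ℝ) + 1) ^ 2 := by positivity
                            linarith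
  have hMC : 2 * ((n : ℝ) + 1) ^ 2 * n + 4 ≤ cM n := by
    unfold cM; have : 0 ≤ 4 * (n : ℝ) ^ 2 * ((n : ℝ) + 1) ^ 2 := by positivity
    linarith
  have hA0 : 0 < A := by linarith
  have hXA : 6 * cM n * A ≤ X := by
    nlinarith [mul_nonneg (by linarith : (0 : ℝ) ≤ 6 * cM n) (mul_nonneg hA0.le (by linarith : 0 ≤ A - 1))]
  have hX1 : 1 ≤ X := by nlinarith
  have hX0 : 0 < X := by linarith
  have hinv : 1 / X ≤ 1 := by rw [div_le_one hX0]; exact hX1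
  have hε00 : 0 ≤ ε := by
    have := (abs_nonneg _).trans h1
    exact nonneg_of_mul_nonneg_right this hH
  set C := ((n : ℝ) + 1) ^ 2 * n with hC
  have hC0 : 0 ≤ C := by positivity
  have k2 := two n hH hA hb hX hε hu2 hu1 ht1 ht2 h2 h1 hg g12
  have k3 := two n hH hA hb hX hε hu3 hu1 ht1 ht3 h3 h1 hg g13
  -- the derivative at `t1`
  have hf1 : |Ph n b 0 t1| ≤ H * ((C + 1) / X) := by
    have h1' := Ph_near n hH.le hb (hu1.trans hinv) ht1
    have hε0 : ε ≤ 1 / X := hε.trans (by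
      apply one_div_le_one_div_of_le hX0
      calc X = X ^ 1 := (pow_one X).symm
        _ ≤ X ^ 3 := pow_le_pow_right₀ hX1 (by norm_num))
    calc |Ph n b 0 t1| = |Ph n b u1 t1 - (Ph n b u1 t1 - Ph n b 0 t1)| := by ring_nf
      _ ≤ |Ph n b u1 t1| + |Ph n b u1 t1 - Ph n b 0 t1| := abs_sub _ _
      _ ≤ H * (1 / X) + ((n : ℝ) + 1) ^ 2 * (H * (n * (1 / X))) := by
          refine add_le_add (h1.trans (by gcongr)) (h1'.trans (by gcongr))
      _ = _ := by rw [hC]; ring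
  have hB : H * ((C + 1) / X) < H / A := by
    rw [div_eq_mul_inv H A]
    apply mul_lt_mul_of_pos_left _ hH
    rw [div_lt_iff₀ hX0, inv_mul_eq_div, lt_div_iff₀ hA0]
    nlinarith
  have hf2 : H / A < |Pht n b 0 t1| := by
    rcases hg t1 ht1 with h | h
    · exact absurd hf1 (not_le.2 (hB.trans h))
    · exact h
  have hD : H / (2 * A) ≤ |Pht n b u1 t1| := by
    have h5 := Pht_near n hH.le hb (hu1.trans hinv) ht1
    have h6 : ((n : ℝ) + 1) ^ 2 * (H * (n * |u1|)) ≤ H / (2 * A) := by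
      calc _ ≤ ((n : ℝ) + 1) ^ 2 * (H * (n * (1 / X))) := by gcongr
        _ = H * (C * (1 / X)) := by rw [hC]; ring
        _ ≤ H * (1 / (2 * A)) := by
            have : C * (1 / X) ≤ 1 / (2 * A) := by
              rw [mul_one_div, div_le_div_iff₀ hX0 (by positivity)]
              nlinarith
            gcongr
        _ = _ := by ring
    have h7 : |Pht n b 0 t1| ≤ |Pht n b u1 t1| + |Pht n b u1 t1 - Pht n b 0 t1| := by
      calc |Pht n b 0 t1| = |Pht n b u1 t1 - (Pht n b u1 t1 - Pht n b 0 t1)| := by ring_nf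
        _ ≤ _ := abs_sub _ _
    have h8 : H / A = H / (2 * A) + H / (2 * A) := by field_simp; ring
    linarith
  have lin : ∀ u t : ℝ, |u| ≤ 1 / X → |t| ≤ 1 → |Ph n b u t| ≤ H * ε →
      |Phu n b u1 t1 * (u - u1) + Pht n b u1 t1 * (t - t1)| ≤
        cM n * H * (ε + (u - u1) ^ 2 + (t - t1) ^ 2) := by
    intro u t hu ht h
    have h5 := Ph_taylor n hH.le hb (hu.trans hinv) (hu1.trans hinv) ht1 ht
    have h6 : |Phu n b u1 t1 * (u - u1) + Pht n b u1 t1 * (t - t1)| ≤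
        |Ph n b u t - Ph n b u1 t1| + |Ph n b u t - Ph n b u1 t1 -
          (Phu n b u1 t1 * (u - u1) + Pht n b u1 t1 * (t - t1))| := by
      calc _ = |(Ph n b u t - Ph n b u1 t1) - (Ph n b u t - Ph n b u1 t1 -
          (Phu n b u1 t1 * (u - u1) + Pht n b u1 t1 * (t - t1)))| := by ring_nf
        _ ≤ _ := abs_sub _ _
    have h7 : |Ph n b u t - Ph n b u1 t1| ≤ H * ε + H * ε :=
      (abs_sub _ _).trans (add_le_add h h1)
    have h8 : 4 * ((n : ℝ) + 1) ^ 2 * n ^ 2 ≤ cM n := by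
      unfold cM
      have : 0 ≤ 2 * (n : ℝ) * ((n : ℝ) + 1) ^ 2 := by positivity
      linarith
    calc _ ≤ _ := h6
      _ ≤ (H * ε + H * ε) +
          ((n : ℝ) + 1) ^ 2 * (H * ((2 * n) ^ 2 * ((u - u1) ^ 2 + (t - t1) ^ 2))) :=
          add_le_add h7 h5
      _ = H * (2 * ε + (4 * ((n : ℝ) + 1) ^ 2 * n ^ 2) * ((u - u1) ^ 2 + (t - t1) ^ 2)) := by ring
      _ ≤ H * (cM n * ε + cM n * ((u - u1) ^ 2 + (t - t1) ^ 2)) := by
          have : 2 ≤ cM n := by linarith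
          gcongr
      _ = _ := by ring
  exact core hM4 hH hA le_rfl hX hε hD (lin u2 t2 hu2 ht2 h2) (lin u3 t3 hu3 ht3 h3)
    h12 h13 k2 k3

end Pool.Agent.H6.AB
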